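import Pool.Agent.Helper43.NK.Defs
import Pool.Agent.Helper78.NQ.Main

/-!
# The result takes each value on the same part of the inputs without collisions
-/

set_option autoImplicit false
set_option linter.unusedSectionVars false

namespace Pool.Agent.Helper74.RQ

open Finset Pool.Agent.Helper19.NF Pool.Agent.Helper74.NW Pool.Agent.Helper99.NQ Pool.Agent.Helper43.NK
open Pool.Agent.Helper74.NE (fine fine_apply)

section balance

variable {n D m : ℕ} [NeZero m] {F B : Type} [Field F] [Fintype F] [AddCommGroup B] [Module F B] [Fintype B]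

open Classical in
/-- Add `c` to the symbol at the place `0` of the block `b`. -/
noncomputable def add0 (b : B) (c : F) (I : B × Word D m B → F) : B × Word D m B → F :=
  fun z => I z + if z = (b, 0) then c else 0

theorem tab_add0 (b : B) (c : F) (I : B × Word D m B → F) : tab (add0 b c I) = tab I := by
  classical
  funext b'
  unfold tab word add0
  refine sum_congr rfl fun l _ => ?_
  by_cases h : (b', l) = (b, (0 : Word D m B))
  · have hl : l = 0 := (Prod.mk.inj h).2
    rw [hl, smul_zero, smul_zero]
  · show (I (b', l) + if (b', l) = (b, 0) then c else 0) • l = I (b', l) • l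
    rw [if_neg h, add_zero]

theorem add0_neg (b : B) (c : F) (I : B × Word D m B → F) : add0 b (-c) (add0 b c I) = I := by
  classical
  funext z
  unfold add0
  split_ifs
  · rw [add_neg_cancel_right]
  · rw [add_zero, add_zero]

theorem out_add0 (g : Fin D → Equiv.Perm (Fin n)) (x0 : Fin n × Fin m → B) (R : ℕ) (v0 : Fin n × Fin m) (c : F)
    {I : B × Word D m B → F} (hI : CF (fine g) x0 R (tab I)) :
    out g x0 R (add0 (val (fine g) x0 (tab I) R v0) c I) = out g x0 R I + c := by
  classical
  unfold Pool.Agent.Helper43.NK.out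
  rw [tab_add0]
  unfold add0
  rw [sum_add_distrib]
  congr 1
  rw [sum_eq_single v0]
  · rw [if_pos rfl]
  · intro v _ hv
    refine if_neg fun h => hv ?_
    exact (hI R R v v0 le_rfl le_rfl (Prod.mk.inj h).1).2
  · intro h
    exact absurd (mem_univ _) h

theorem card_value_le (g : Fin D → Equiv.Perm (Fin n)) (x0 : Fin n × Fin m → B) (R : ℕ) (v0 : Fin n × Fin m)
    (y y' : F) :
    Nat.card {I : B × Word D m B → F // CF (fine g) x0 R (tab I) ∧ out g x0 R I = y'} ≤
      Nat.card {I : B × Word D m B → F // CF (fine g) x0 R (tab I) ∧ out g x0 R I = y} := by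
  have : Finite {I : B × Word D m B → F // CF (fine g) x0 R (tab I) ∧ out g x0 R I = y} := inferInstance
  refine Nat.card_le_card_of_injective (fun I => ⟨add0 (val (fine g) x0 (tab I.1) R v0) (y - y') I.1, ?_, ?_⟩) ?_
  · rw [tab_add0]
    exact I.2.1
  · rw [out_add0 g x0 R v0 _ I.2.1, I.2.2]
    ring
  · intro I J h
    have h1 : add0 (val (fine g) x0 (tab I.1) R v0) (y - y') I.1 =
        add0 (val (fine g) x0 (tab J.1) R v0) (y - y') J.1 := congrArg Subtype.val h
    have h2 : tab I.1 = tab J.1 := by
      rw [← tab_add0 (val (fine g) x0 (tab I.1) R v0) (y - y') I.1, h1, tab_add0]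
    have h3 := congrArg (add0 (val (fine g) x0 (tab I.1) R v0) (-(y - y'))) h1
    rw [add0_neg, h2, add0_neg] at h3
    exact Subtype.ext h3

/-- Each value on the part `1 / q` of the inputs without collisions. -/
theorem card_value (g : Fin D → Equiv.Perm (Fin n)) (x0 : Fin n × Fin m → B) (R : ℕ) (v0 : Fin n × Fin m) (y : F) :
    Nat.card {I : B × Word D m B → F // CF (fine g) x0 R (tab I)} ≤
      Nat.card F * Nat.card {I : B × Word D m B → F // out g x0 R I = y} := by
  classical
  have h1 : Nat.card {I : B × Word D m B → F // CF (fine g) x0 R (tab I)} =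
      ∑ y', Nat.card {I : B × Word D m B → F // CF (fine g) x0 R (tab I) ∧ out g x0 R I = y'} := by
    have := Fintype.ofFinite (B × Word D m B → F)
    simp only [Nat.card_eq_fintype_card, Fintype.card_subtype]
    rw [card_eq_sum_card_fiberwise (f := fun I => out g x0 R I) (t := univ) (fun _ _ => mem_univ _)]
    refine sum_congr rfl fun y' _ => ?_
    rw [filter_filter]
  have h2 : Nat.card {I : B × Word D m B → F // CF (fine g) x0 R (tab I) ∧ out g x0 R I = y} ≤
      Nat.card {I : B × Word D m B → F // out g x0 R I = y} :=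
    Nat.card_le_card_of_injective (fun I => ⟨I.1, I.2.2⟩) fun I J h =>
      Subtype.ext (congrArg (fun x : {I : B × Word D m B → F // out g x0 R I = y} => x.1) h)
  rw [h1]
  calc ∑ y', Nat.card {I : B × Word D m B → F // CF (fine g) x0 R (tab I) ∧ out g x0 R I = y'}
      ≤ ∑ _y' : F, Nat.card {I : B × Word D m B → F // CF (fine g) x0 R (tab I) ∧ out g x0 R I = y} :=
        sum_le_sum fun y' _ => card_value_le g x0 R v0 y y'
    _ = Nat.card F * Nat.card {I : B × Word D m B → F // CF (fine g) x0 R (tab I) ∧ out g x0 R I = y} := by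
        rw [sum_const, smul_eq_mul, card_univ, Nat.card_eq_fintype_card (α := F)]
    _ ≤ _ := Nat.mul_le_mul_left _ h2

/-- The part of the inputs with the value `y`. -/
theorem part_value (g : Fin D → Equiv.Perm (Fin n)) (x0 : Fin n × Fin m → B) (hx0 : Function.Injective x0) (R : ℕ)
    (c0 : Fin D × Fin m) (v0 : Fin n × Fin m) (y : F) :
    (1 / (Nat.card F : ℝ) - ((R + 1) * (n * m)) ^ 2 / Fintype.card B) * Nat.card (B × Word D m B → F) ≤
      Nat.card {I : B × Word D m B → F // out g x0 R I = y} := by
  classical
  have h1 := Pool.Agent.Helper78.NQ.card_cf (F := F) g x0 hx0 R c0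
  have h2 : (Nat.card {I : B × Word D m B → F // CF (fine g) x0 R (tab I)} : ℝ) ≤
      Nat.card F * Nat.card {I : B × Word D m B → F // out g x0 R I = y} := by
    exact_mod_cast card_value g x0 R v0 y
  have h3 : (Nat.card (B × Word D m B → F) : ℝ) =
      Nat.card {I : B × Word D m B → F // CF (fine g) x0 R (tab I)} +
      Nat.card {I : B × Word D m B → F // ¬ CF (fine g) x0 R (tab I)} := by
    have := Fintype.ofFinite (B × Word D m B → F)
    simp only [Nat.card_eq_fintype_card, Fintype.card_subtype]
    rw [← Nat.cast_add, card_filter_add_card_filter_not, card_univ]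
  have hq : (1 : ℝ) ≤ Nat.card F := by
    have : 0 < Nat.card F := Nat.card_pos
    exact_mod_cast this
  set T : ℝ := (Nat.card (B × Word D m B → F) : ℝ) with hT
  set A : ℝ := (Nat.card {I : B × Word D m B → F // CF (fine g) x0 R (tab I)} : ℝ) with hA
  set V : ℝ := (Nat.card {I : B × Word D m B → F // out g x0 R I = y} : ℝ) with hV
  set ε : ℝ := ((R + 1) * (n * m)) ^ 2 / Fintype.card B with hε
  have hε0 : 0 ≤ ε * T := by positivity
  have h4 : A ≥ (1 - ε) * T := by linarith
  have h5 : (1 - ε) * T ≤ Nat.card F * V := by linarith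
  have hq0 : (0 : ℝ) < Nat.card F := by linarith
  have h6 : (1 - ε) * T / Nat.card F ≤ V := by
    rw [div_le_iff₀ hq0]
    linarith
  have h7 : ε * T / Nat.card F ≤ ε * T := div_le_self hε0 hq
  calc (1 / (Nat.card F : ℝ) - ε) * T = T / Nat.card F - ε * T := by ring
    _ ≤ T / Nat.card F - ε * T / Nat.card F := by linarith
    _ = (1 - ε) * T / Nat.card F := by ring
    _ ≤ V := h6

end balance

end Pool.Agent.Helper74.RQ
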