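import Pool.Agent.Helper74.NW.Basic

/-!
# The program with a counter for the queries
-/

set_option autoImplicit false

namespace Pool.Agent.Helper74.RQ

open Pool.Agent.Helper74.NW

variable {C W Z : Type} {S : ℕ}

/-- The state `s` with the value `i` of the counter. -/
def enc (S L : ℕ) (x : Fin S × Fin (L + 1)) : Fin (S * (L + 1)) := finProdFinEquiv x

/-- The program with a counter: at most `L` queries. -/
def level (P : NProg C W Z S) (L : ℕ) : NProg C W Z (S * (L + 1)) where
  start := enc S L (P.start, 0)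
  act := fun u =>
    let x := finProdFinEquiv.symm u
    (P.act x.1).map (fun p => (p.1, fun v => {t | ∃ s' ∈ p.2 v, ∃ j : Fin (L + 1), (j : ℕ) = x.2 + 1 ∧
      t = enc S L (s', j)})) id

theorem level_act (P : NProg C W Z S) (L : ℕ) (s : Fin S) (i : Fin (L + 1)) :
    (level P L).act (enc S L (s, i)) =
      (P.act s).map (fun p => (p.1, fun v => {t | ∃ s' ∈ p.2 v, ∃ j : Fin (L + 1), (j : ℕ) = i + 1 ∧
        t = enc S L (s', j)})) id := by
  show (P.act (finProdFinEquiv.symm (enc S L (s, i))).1).map _ _ = _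
  unfold enc
  simp only [Equiv.symm_apply_apply]

theorem enc_surj (L : ℕ) (u : Fin (S * (L + 1))) : ∃ s i, u = enc S L (s, i) :=
  ⟨(finProdFinEquiv.symm u).1, (finProdFinEquiv.symm u).2, by
    unfold enc
    rw [Prod.mk.eta, Equiv.apply_symm_apply]⟩

theorem enc_inj {L : ℕ} {x y : Fin S × Fin (L + 1)} (h : enc S L x = enc S L y) : x = y :=
  finProdFinEquiv.injective h

theorem run_of_level {P : NProg C W Z S} {L : ℕ} {I : C → W} {u v : Fin (S * (L + 1))} {l : List C}
    (h : (level P L).Run I u l v) : ∀ s i, u = enc S L (s, i) →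
      ∃ t j, v = enc S L (t, j) ∧ P.Run I s l t ∧ (j : ℕ) = i + l.length := by
  induction h with
  | nil u => exact fun s i hu => ⟨s, i, hu, NProg.Run.nil s, rfl⟩
  | cons u u' v c next l h1 h2 _ ih =>
    rintro s i rfl
    rw [level_act] at h1
    cases hs : P.act s with
    | inr z =>
      rw [hs] at h1
      simp at h1
    | inl p =>
      rw [hs, Sum.map_inl] at h1
      have h3 := Sum.inl_injective h1
      rw [Prod.mk.injEq] at h3
      obtain ⟨h4, h5⟩ := h3
      rw [← h5] at h2
      obtain ⟨s', hs', j, hj, rfl⟩ := h2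
      obtain ⟨t, j', ht, hr, hj'⟩ := ih s' j rfl
      refine ⟨t, j', ht, NProg.Run.cons s s' t c p.2 l ?_ hs' hr, ?_⟩
      · rw [hs, ← h4]
      · rw [hj', hj, List.length_cons]
        omega

theorem level_of_run {P : NProg C W Z S} {L : ℕ} {I : C → W} {s t : Fin S} {l : List C}
    (h : P.Run I s l t) : ∀ i j : Fin (L + 1), (j : ℕ) = i + l.length →
      (level P L).Run I (enc S L (s, i)) l (enc S L (t, j)) := by
  induction h with
  | nil s =>
    intro i j hj
    have : j = i := Fin.ext (by simpa using hj)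
    rw [this]
    exact NProg.Run.nil _
  | cons s s' t c next l h1 h2 _ ih =>
    intro i j hj
    rw [List.length_cons] at hj
    have hi : (i : ℕ) + 1 < L + 1 := by
      have := j.2
      omega
    refine NProg.Run.cons _ (enc S L (s', ⟨i + 1, hi⟩)) _ c (fun v => {t | ∃ s' ∈ next v, ∃ j : Fin (L + 1),
      (j : ℕ) = i + 1 ∧ t = enc S L (s', j)}) l ?_ ⟨s', h2, ⟨i + 1, hi⟩, rfl, rfl⟩ (ih _ _ ?_)
    · rw [level_act, h1, Sum.map_inl]
    · rw [hj]
      show (i : ℕ) + (l.length + 1) = i + 1 + l.length
      omega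

/-- The computations of the program with the counter are the computations with at most `L` queries. -/
theorem level_ends (P : NProg C W Z S) (L : ℕ) (I : C → W) (l : List C) (z : Z) :
    (level P L).Ends I l z ↔ P.Ends I l z ∧ l.length ≤ L := by
  constructor
  · rintro ⟨v, h1, h2⟩
    obtain ⟨t, j, rfl, h3, h4⟩ := run_of_level h1 P.start 0 rfl
    rw [level_act] at h2
    refine ⟨⟨t, h3, ?_⟩, ?_⟩
    · cases hs : P.act t with
      | inl p =>
        rw [hs] at h2
        simp at h2
      | inr z' =>
        rw [hs, Sum.map_inr] at h2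
        have h5 : z' = z := Sum.inr_injective h2
        rw [h5]
    · have := j.2
      rw [Fin.val_zero] at h4
      omega
  · rintro ⟨⟨t, h1, h2⟩, h3⟩
    refine ⟨enc S L (t, ⟨l.length, by omega⟩), level_of_run h1 0 _ ?_, ?_⟩
    · rw [Fin.val_zero, zero_add]
    · rw [level_act, h2, Sum.map_inr]
      rfl

end Pool.Agent.Helper74.RQ
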