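import Pool.Agent.Helper74.RQ.Top
import Pool.Agent.Helper78.NK.Sum

/-!
# RQ: all inputs with rare symbols
-/

set_option autoImplicit false
set_option linter.unusedSectionVars false

namespace Pool.Agent.Helper74.RQ

open Finset Pool.Agent.Helper19.NF Pool.Agent.Helper74.NW Pool.Agent.Helper99.NQ Pool.Agent.Helper43.NK
open Pool.Agent.Helper74.NE (fine fine_apply)
open Pool.Agent.Helper96.PH (CB)

section main

variable {n D m d S : ℕ} [NeZero m] {F B : Type} [Field F] [Fintype F] [AddCommGroup B] [Module F B] [Fintype B]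

/-- The inputs on which the computations with a result query some `θ` symbols at most `r` times each. -/
def Rare [DecidableEq (B × Word D m B)] (P : NProg (B × Word D m B) F F S) (θ r R : ℕ)
    (I : B × Word D m B → F) : Prop :=
  (∃ l z, P.Ends I l z) ∧ (S ≤ 2 ^ R ∨ ∀ l z, P.Ends I l z → l.length ≤ 2 ^ R) ∧
    ∀ l z, P.Ends I l z → ∃ X : Finset (B × Word D m B), θ ≤ X.card ∧ ∀ x ∈ X, l.count x ≤ r

theorem main_bound_of [DecidableEq (B × Word D m B)] (P : NProg (B × Word D m B) F F S)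
    (g : Fin D → Equiv.Perm (Fin n)) (x0 : Fin n × Fin m → B)
    (hx0 : Function.Injective x0) (c0 : Fin D × Fin m) (h T a R θ e r κ' j : ℕ) {w : ℕ}
    (hX : ∀ X : Finset (Fin n), n ≤ 4 * (w + 1) * X.card →
      n ≤ (X.biUnion (fun u => univ.image (fun s => g s u))).card + a)
    (ha : a < n) (hP : ∀ I l z, P.Ends I l z → z = out g x0 (R + 1) I)
    (hL : h + 1 ≤ Fintype.card (Word D m B)) (hq : Fintype.card (Word D m B) ≤ h * Fintype.card F)
    (hθ : θ ≤ Fintype.card (B × Word D m B)) (hTe : Fintype.card (B × Word D m B) + e ≤ θ + T)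
    (hK : 2 * (r * θ) + (e + 1) ≤ (w + 1) * (e + 1))
    (hT : T ≤ Fintype.card (B × Word D m B)) (η : ℝ)
    (hη : η = 1 + (1 - (T : ℝ) / Fintype.card (B × Word D m B) - (h : ℝ) / Fintype.card (Word D m B)) / 2)
    (hη1 : 1 ≤ η) (hκ' : 2 * a ≤ κ') (hj : 2 * j ≤ n) (k1 : ℕ) {E : ℝ} (hE0 : 0 ≤ E)
    (hTB : ∀ (σ : Fin (w + 2) → Fin S) (V : Finset (Fin n)) (τ : Fin (w + 1) → Fin n → Fin D × Fin m) (a : F)
      (γ : B → F), 3 * n ≤ 4 * V.card →
      (∀ I, (∀ b, I (b, 0) = γ b) → (∀ l : Fin (w + 1), ∃ c, P.Run I (σ l.castSucc) c (σ l.succ)) →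
        out g x0 (R + 1) I = a) →
      (∀ K : Finset (Fin n), k1 ≤ K.card → CB γ (K × Fin m) (2 * w + 1)
        ((Fintype.card B : ℝ) ^ (-((k1 * m : ℕ) : ℝ) / 2 ^ (2 * w + 3)))) →
      (Nat.card {I : B × Word D m B → F // (∀ b, I (b, 0) = γ b) ∧ CF (fine g) x0 R (tab I) ∧
        InT P g x0 h R σ V τ I} : ℝ) ≤ E * Nat.card {I : B × Word D m B → F // ∀ b, I (b, 0) = γ b}) :
    (Nat.card {I // Rare P θ r R I} : ℝ) ≤
      (((R + 1) * (n * m)) ^ 2 / Fintype.card B +
        R * S ^ 3 * 2 ^ n * (D * m) ^ (2 * n) *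
          err n m d a κ' j (Fintype.card F) ((h : ℝ) / Fintype.card (Word D m B)) η +
        Fintype.card F * 2 ^ (2 * w + 2) / Real.sqrt (Fintype.card B) +
        S ^ (w + 2) * 2 ^ n * (D * m) ^ (n * (w + 1)) * E) * Nat.card (B × Word D m B → F) := by
  classical
  refine Pool.Agent.Helper78.NK.assemble P g x0 hx0 c0 h R (Rare P θ r R)
    (fun I => ∃ s t, (∃ c, P.Run I s c t ∧ c.length ≤ 2 ^ R) ∧ Force P g x0 h T a R s t I) _ ?_ ?_ hP k1 hE0 hTB
  · rintro I - ⟨⟨c, z, hc⟩, hlen, hall⟩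
    rcases dichotomy P g x0 h T a R θ e r hX (by omega) c0 hL hθ hTe hK hc hall hlen with h1 | ⟨σ, V, τ, h2⟩
    · exact Or.inl h1
    · exact Or.inr ⟨σ, V, τ, z, h2⟩
  · refine forced_pair P g x0 h T a R κ' j (fun X hX4 => hX X (hX4.trans ?_)) ha hL hq hT η hη hη1 hκ' hj
    exact Nat.mul_le_mul_right _ (Nat.le_mul_of_pos_right 4 (Nat.succ_pos w))

/-- Computations which are not too long have many rare symbols. -/
theorem rare_of_length {C : Type} [Fintype C] [DecidableEq C] (l : List C) (θ r : ℕ)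
    (h : l.length + (r + 1) * θ ≤ (r + 1) * Fintype.card C) :
    ∃ X : Finset C, θ ≤ X.card ∧ ∀ x ∈ X, l.count x ≤ r := by
  refine ⟨univ.filter (fun x => l.count x ≤ r), ?_, fun x hx => (mem_filter.1 hx).2⟩
  have h1 : (r + 1) * (univ.filter (fun x => ¬ l.count x ≤ r)).card ≤ l.length := by
    have h2 : ∀ s : Finset C, ∑ x ∈ s, l.count x ≤ l.length := by
      intro s
      induction l with
      | nil => simp
      | cons y l ih =>
        simp only [List.count_cons, sum_add_distrib, List.length_cons]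
        refine Nat.add_le_add (ih (by rw [List.length_cons] at h; omega)) ?_
        calc ∑ x ∈ s, (if (y == x) = true then 1 else 0) ≤ ∑ x ∈ s, if y = x then 1 else 0 := by
              refine sum_le_sum fun x _ => ?_
              simp
          _ ≤ 1 := by
              rw [sum_ite_eq]
              split_ifs <;> simp
    calc (r + 1) * (univ.filter (fun x => ¬ l.count x ≤ r)).card
        = ∑ _x ∈ univ.filter (fun x => ¬ l.count x ≤ r), (r + 1) := by rw [sum_const, smul_eq_mul, mul_comm]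
      _ ≤ ∑ x ∈ univ.filter (fun x => ¬ l.count x ≤ r), l.count x := by
          refine sum_le_sum fun x hx => ?_
          have := (mem_filter.1 hx).2
          omega
      _ ≤ l.length := h2 _
  have h3 := card_filter_add_card_filter_not (s := (univ : Finset C)) (fun x => l.count x ≤ r)
  rw [card_univ] at h3
  have h4 : (r + 1) * θ ≤ (r + 1) * (univ.filter (fun x => l.count x ≤ r)).card := by
    have h5 : (r + 1) * Fintype.card C = (r + 1) * (univ.filter (fun x => l.count x ≤ r)).card +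
        (r + 1) * (univ.filter (fun x => ¬ l.count x ≤ r)).card := by rw [← Nat.mul_add, h3]
    omega
  exact Nat.le_of_mul_le_mul_left h4 (Nat.succ_pos r)

end main

end Pool.Agent.Helper74.RQ
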