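import Pool.Agent.Helper74.RQ.Main
import Pool.Agent.Helper78.NK.Main
import Pool.Agent.Helper98.NK.Type

/-!
# RQ: the bound for the inputs with rare symbols
-/

set_option autoImplicit false
set_option linter.unusedSectionVars false

namespace Pool.Agent.Helper74.RQ

open Finset Pool.Agent.Helper19.NF Pool.Agent.Helper74.NW Pool.Agent.Helper99.NQ Pool.Agent.Helper43.NK
open Pool.Agent.Helper74.NE (fine fine_apply)

section bound

variable {n D m d S : ℕ} [NeZero m] {F B : Type} [Field F] [Fintype F] [AddCommGroup B] [Module F B] [Fintype B]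

theorem main_bound_rare [DecidableEq (B × Word D m B)] (P : NProg (B × Word D m B) F F S)
    (g : Fin D → Equiv.Perm (Fin n)) (x0 : Fin n × Fin m → B)
    (hx0 : Function.Injective x0) (c0 : Fin D × Fin m) (h T a R θ e r κ' j : ℕ) {w : ℕ}
    (hX : ∀ X : Finset (Fin n), n ≤ 4 * (w + 1) * X.card →
      n ≤ (X.biUnion (fun u => univ.image (fun s => g s u))).card + a)
    (ha : a < n) (hP : ∀ I l z, P.Ends I l z → z = out g x0 (R + 1) I)
    (hL : h + 2 ≤ Fintype.card (Word D m B)) (hq : Fintype.card (Word D m B) ≤ (h + 1) * Fintype.card F)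
    (hθ : θ ≤ Fintype.card (B × Word D m B)) (hTe : Fintype.card (B × Word D m B) + e ≤ θ + T)
    (hK : 2 * (r * θ) + (e + 1) ≤ (w + 1) * (e + 1))
    (hT : T ≤ Fintype.card (B × Word D m B)) (η : ℝ)
    (hη : η = 1 + (1 - (T : ℝ) / Fintype.card (B × Word D m B) - ((h + 1 : ℕ) : ℝ) / Fintype.card (Word D m B)) / 2)
    (hη1 : 1 ≤ η) (hκ' : 2 * a ≤ κ') (hj : 2 * j ≤ n)
    (M Z κ v : ℕ) (hv : 4 * v ≤ 3 * n) (hN : Par n D m d w F B h M Z κ v) :
    (Nat.card {I // Rare P θ r R I} : ℝ) ≤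
      (((R + 1) * (n * m)) ^ 2 / Fintype.card B +
        R * S ^ 3 * 2 ^ n * (D * m) ^ (2 * n) *
          err n m d a κ' j (Fintype.card F) (((h + 1 : ℕ) : ℝ) / Fintype.card (Word D m B)) η +
        Fintype.card F * 2 ^ (2 * w + 2) / Real.sqrt (Fintype.card B) +
        S ^ (w + 2) * 2 ^ n * (D * m) ^ (n * (w + 1)) *
          errB n d w Z (Fintype.card F) ((h : ℝ) / Fintype.card (Word D m B))
            ((Fintype.card B : ℝ) ^ (-((κ * m : ℕ) : ℝ) / 2 ^ (2 * w + 3)))) * Nat.card (B × Word D m B → F) := by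
  refine main_bound_of P g x0 hx0 c0 (h + 1) T a R θ e r κ' j hX ha hP hL hq hθ hTe hK hT η hη hη1 hκ' hj κ
    (Pool.Agent.Helper78.NK.errB_nonneg _ _ _ _ (Nat.cast_nonneg _) (by positivity)
      (Real.rpow_nonneg (Nat.cast_nonneg _) _)) ?_
  intro σ V τ a γ hV hs hCB
  exact Pool.Agent.Helper98.NK.type_bound P g x0 R σ V τ a γ hs h M Z κ
    (Pool.Agent.Helper78.NK.par_mono hN (by omega)) (Real.rpow_nonneg (Nat.cast_nonneg _) _) hCB

end bound

end Pool.Agent.Helper74.RQ
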