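import Pool.Agent.Helper74.NW.Model

/-!
# Symbols which are queried at most `r` times
-/

set_option autoImplicit false

namespace Pool.Agent.Helper74.RQ

open Classical in
/-- The number of the symbols (cells) which occur at most `r` times in the list `l` of the queries of a computation. -/
noncomputable def rare {C : Type} (r : ℕ) (l : List C) : ℕ := Nat.card {x : C // l.count x ≤ r}

end Pool.Agent.Helper74.RQ
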