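import Pool.Agent.Helper74.RQ.Bound
import Pool.Agent.Helper74.RQ.Level
import Pool.Agent.Helper74.RQ.Defs
import Pool.Agent.Helper58.NK.Push

/-!
# RQ: the clauses (N), (K), (S) from the bound for the inputs with rare symbols
-/

set_option autoImplicit false
set_option linter.unusedSectionVars false

namespace Pool.Agent.Helper74.RQ

open Finset Pool.Agent.Helper74.NW Pool.Agent.Helper99.NQ

open Classical in
theorem rare_spec' {C : Type} [Fintype C] {r θ : ℕ} {l : List C} (h : θ ≤ rare r l) :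
    ∃ X : Finset C, θ ≤ X.card ∧ ∀ x ∈ X, l.count x ≤ r := by
  refine ⟨univ.filter (fun x => l.count x ≤ r), ?_, fun x hx => (mem_filter.1 hx).2⟩
  unfold rare at h
  rw [Nat.card_eq_fintype_card, Fintype.card_subtype] at h
  exact h

theorem rare_spec {C : Type} [Fintype C] [inst : DecidableEq C] {r θ : ℕ} {l : List C} (h : θ ≤ rare r l) :
    ∃ X : Finset C, θ ≤ X.card ∧ ∀ x ∈ X, l.count x ≤ r := by
  have h1 := rare_spec' h
  have hi : (fun a b : C => Classical.propDecidable (a = b)) = inst := Subsingleton.elim _ _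
  rw [hi] at h1
  exact h1

section clauses

variable {D m : ℕ} [NeZero m] {F B : Type} [Field F] [Fintype F] [AddCommGroup B] [Module F B] [Fintype B]

open Classical in
/-- The bound for the inputs with rare symbols, for all programs with at most `2 ^ a` states. -/
def Bd (f : (B × Word D m B → F) → F) (θ r R a : ℕ) (X : ℝ) : Prop :=
  ∀ (S : ℕ) (P : NProg (B × Word D m B) F F S), S ≤ 2 ^ a → (∀ I l z, P.Ends I l z → z = f I) →
    (Nat.card {I // Rare P θ r R I} : ℝ) ≤ X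

theorem card_mono {A : Type} [Finite A] {p q : A → Prop} {X : ℝ} (h : ∀ x, p x → q x)
    (hq : (Nat.card {x // q x} : ℝ) ≤ X) : (Nat.card {x // p x} : ℝ) ≤ X := by
  refine le_trans ?_ hq
  have : Nat.card {x // p x} ≤ Nat.card {x // q x} :=
    Nat.card_le_card_of_injective (fun x => ⟨x.1, h x.1 x.2⟩) fun x y hxy =>
      Subtype.ext (congrArg (fun z : {x // q x} => z.1) hxy)
  exact_mod_cast this

/-- (N) -/
theorem clause_N {f : (B × Word D m B → F) → F} {θ r R a : ℕ} {X x : ℝ} (hB : Bd f θ r R a X) (hR : R ≤ a)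
    (hx : (θ : ℝ) < x) {S : ℕ} (P : NProg (B × Word D m B) F F S) (hP : ∀ I l z, P.Ends I l z → z = f I)
    (hS : S ≤ 2 ^ R) :
    (Nat.card {I : B × Word D m B → F // (∃ l z, P.Ends I l z) ∧ ∀ l z, P.Ends I l z → x ≤ rare r l} : ℝ) ≤ X := by
  classical
  refine card_mono ?_ (hB S P (hS.trans (Nat.pow_le_pow_right (by norm_num) hR)) hP)
  rintro I ⟨h1, h2⟩
  refine ⟨h1, Or.inl hS, fun l z h3 => ?_⟩
  have h4 : (θ : ℝ) < rare r l := lt_of_lt_of_le hx (h2 l z h3)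
  exact rare_spec (Nat.cast_lt.1 h4).le

/-- (K) -/
theorem clause_K {f : (B × Word D m B → F) → F} {θ r R a : ℕ} {X : ℝ} (hB : Bd f θ r R a X)
    {S L : ℕ} (P : NProg (B × Word D m B) F F S) (hP : ∀ I l z, P.Ends I l z → z = f I)
    (hL : L + (r + 1) * θ ≤ (r + 1) * Fintype.card (B × Word D m B)) (hLR : L ≤ 2 ^ R) (hS : S * (L + 1) ≤ 2 ^ a) :
    (Nat.card {I : B × Word D m B → F // ∃ l z, P.Ends I l z ∧ l.length ≤ L} : ℝ) ≤ X := by
  classical
  refine card_mono ?_ (hB (S * (L + 1)) (level P L) hS fun I l z h => hP I l z ((level_ends P L I l z).1 h).1)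
  rintro I ⟨l, z, h1, h2⟩
  refine ⟨⟨l, z, (level_ends P L I l z).2 ⟨h1, h2⟩⟩, Or.inr fun l z h => ?_, fun l z h => ?_⟩
  · exact (((level_ends P L I l z).1 h).2).trans hLR
  · have h3 := ((level_ends P L I l z).1 h).2
    exact rare_of_length l θ r (by omega)

/-- (S), rare symbols -/
theorem clause_NS {f : (B × Word D m B → F) → F} {θ r R a : ℕ} {X x : ℝ} (hB : Bd f θ r R a X) (hR : R ≤ a)
    (hx : (θ : ℝ) < x) {b : ℕ} {Q Γ : Type} [Finite Q] (P : NPProg (B × Word D m B) F F Q Γ)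
    (hP : ∀ I l j z, P.Ends I l j z → z = f I) (hQ : (2 * Nat.card Q ^ 2 + 2) ^ (b + 2) ≤ 2 ^ R) :
    (Nat.card {I : B × Word D m B → F // (∃ l j z, P.Ends I l j z ∧ j ≤ 2 ^ b) ∧
      ∀ l j z, P.Ends I l j z → x ≤ rare r l} : ℝ) ≤ X := by
  classical
  have : Fintype Q := Fintype.ofFinite Q
  rw [Nat.card_eq_fintype_card] at hQ
  refine card_mono ?_ (Pool.Agent.Helper58.NK.push_rare' (r := r) (w := θ) P ((0 : B), (0 : Word D m B)) hQ
    (fun I z => z = f I) X hP ?_)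
  · rintro I ⟨h1, h2⟩
    refine ⟨h1, fun l j z h3 => ?_⟩
    have h4 : (θ : ℝ) < rare r l := lt_of_lt_of_le hx (h2 l j z h3)
    exact rare_spec (Nat.cast_lt.1 h4)
  · intro S hS P' hP'
    refine card_mono ?_ (hB S P' (hS.trans (Nat.pow_le_pow_right (by norm_num) hR)) hP')
    rintro I ⟨h1, h2⟩
    exact ⟨h1, Or.inl hS, h2⟩

/-- (S), length -/
theorem clause_KS {f : (B × Word D m B → F) → F} {θ r R a : ℕ} {X : ℝ} (hB : Bd f θ r R a X)
    {b L : ℕ} {Q Γ : Type} [Finite Q] (P : NPProg (B × Word D m B) F F Q Γ)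
    (hP : ∀ I l j z, P.Ends I l j z → z = f I)
    (hL : L + 1 + (r + 1) * θ ≤ (r + 1) * Fintype.card (B × Word D m B)) (hLR : L + 1 ≤ 2 ^ R)
    (hQ : (2 * Nat.card Q ^ 2 + 2) ^ (b + 2) * (L + 2) ≤ 2 ^ a) :
    (Nat.card {I : B × Word D m B → F // ∃ l j z, P.Ends I l j z ∧ j ≤ 2 ^ b ∧ l.length ≤ L} : ℝ) ≤ X := by
  classical
  have : Fintype Q := Fintype.ofFinite Q
  rw [Nat.card_eq_fintype_card] at hQ
  refine Pool.Agent.Helper58.NK.push_len P ((0 : B), (0 : Word D m B)) le_rfl (fun I z => z = f I) X hP ?_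
  intro S hS P' hP'
  exact clause_K hB P' hP' hL hLR ((Nat.mul_le_mul_right _ hS).trans hQ)

/-- The number `θ`. -/
theorem theta_lt {y : ℝ} (hy : 0 < y) : ((⌈y⌉₊ - 1 : ℕ) : ℝ) < y := by
  have h1 : 1 ≤ ⌈y⌉₊ := Nat.one_le_iff_ne_zero.2 (Nat.ceil_pos.2 hy).ne'
  rw [Nat.cast_sub h1, Nat.cast_one]
  linarith [Nat.ceil_lt_add_one hy.le]

theorem theta_len {r N L : ℕ} {y : ℝ} (hy : 0 < y) (hL : (L : ℝ) + (r + 1) * y ≤ (r + 1) * N) :
    L + 1 + (r + 1) * (⌈y⌉₊ - 1) ≤ (r + 1) * N := by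
  have h1 : (L : ℝ) + (r + 1) * ((⌈y⌉₊ - 1 : ℕ) : ℝ) < (r + 1) * N := by
    have h2 : ((r : ℝ) + 1) * ((⌈y⌉₊ - 1 : ℕ) : ℝ) < (r + 1) * y :=
      mul_lt_mul_of_pos_left (theta_lt hy) (by positivity)
    linarith
  have h2 : L + (r + 1) * (⌈y⌉₊ - 1) < (r + 1) * N := by exact_mod_cast h1
  omega

end clauses

end Pool.Agent.Helper74.RQ
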