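import Pool.Agent.Helper89.RQ.Cut
import Pool.Agent.Helper43.NK.Defs
import Pool.Agent.Helper78.NK.Rec
import Pool.Agent.Helper78.NQ.Main

/-!
# RQ: programs which query many symbols rarely. The cut, the forced pairs and the types
-/

set_option autoImplicit false
set_option linter.unusedSectionVars false

namespace Pool.Agent.Helper74.RQ

open Finset Pool.Agent.Helper19.NF Pool.Agent.Helper74.NW Pool.Agent.Helper99.NQ
open Pool.Agent.Helper74.NE (fine fine_apply)
open Pool.Agent.Helper43.NK (InT)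
open Pool.Agent.Helper89.NQ (card_le_gap)

/-- Without loops. -/
theorem short_run {C W Z : Type} {S : ℕ} {P : NProg C W Z S} {I : C → W} {s t : Fin S} {c : List C}
    (h : P.Run I s c t) : ∃ c', P.Run I s c' t ∧ c'.length < S := by
  classical
  have hex : ∃ k c', P.Run I s c' t ∧ c'.length = k := ⟨_, c, h, rfl⟩
  obtain ⟨l, hl, hlk⟩ := Nat.find_spec hex
  refine ⟨l, hl, run_short hl fun l' hl' => ?_⟩
  rw [hlk]
  exact Nat.find_min' hex ⟨l', hl', rfl⟩

/-- The number of elements does not depend on the instance. -/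
theorem card_filter_inst {α : Type} [Fintype α] (p : α → Prop) (i1 i2 : DecidablePred p) :
    (@Finset.filter α p i1 univ).card = (@Finset.filter α p i2 univ).card := by
  rw [Subsingleton.elim i1 i2]

section top

variable {n D m d S : ℕ} [NeZero m] {F B Z : Type} [Field F] [AddCommGroup B] [Module F B] [Fintype B]

theorem gap_mono {V V' : Finset (B × Word D m B)} (h : V ⊆ V') (b : B) : gap V b ≤ gap V' b := by
  classical
  unfold gap
  refine card_le_card fun l hl => ?_
  rw [mem_filter] at hl ⊢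
  exact ⟨hl.1, h hl.2⟩

theorem free_mono {c c' : List (B × Word D m B)} (h : ∀ z ∈ c', z ∈ c) : free c ⊆ free c' := by
  classical
  intro z hz
  unfold free at hz ⊢
  rw [mem_filter] at hz ⊢
  exact ⟨hz.1, fun h1 => hz.2 (h z h1)⟩

theorem comp_mono (g : Fin D → Equiv.Perm (Fin n)) (x0 : Fin n × Fin m → B) (h i : ℕ) (I : B × Word D m B → F)
    {V V' : Finset (B × Word D m B)} (hV : V ⊆ V') : comp g x0 h i I V' ⊆ comp g x0 h i I V := by
  classical
  intro u hu
  unfold comp at hu ⊢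
  rw [mem_filter] at hu ⊢
  exact ⟨hu.1, fun s t => (gap_mono hV _).trans_lt (hu.2 s t)⟩

theorem comp_step (g : Fin D → Equiv.Perm (Fin n)) (x0 : Fin n × Fin m → B) (h i : ℕ) (I : B × Word D m B → F)
    (r0 : Fin D × Fin m) (hL : h + 1 ≤ Fintype.card (Word D m B)) {c : List (B × Word D m B)} (hc : c.length ≤ 1) :
    comp g x0 h i I (free c) = ∅ := by
  classical
  rw [eq_empty_iff_forall_notMem]
  intro u hu
  have h1 := (mem_filter.1 hu).2 r0.1 r0.2
  have h2 := card_le_gap c (val (fine g) x0 (tab I) i (g r0.1 u, r0.2))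
  omega

/-- The windows of an accepting computation: one of them is forced, or there are runs with few complete nodes. -/
theorem dichotomy [DecidableEq (B × Word D m B)] (P : NProg (B × Word D m B) F Z S)
    (g : Fin D → Equiv.Perm (Fin n)) (x0 : Fin n × Fin m → B)
    (h T a R θ e r : ℕ) {w : ℕ}
    (hX : ∀ X : Finset (Fin n), n ≤ 4 * (w + 1) * X.card →
      n ≤ (X.biUnion (fun u => univ.image (fun s => g s u))).card + a)
    (hn : 0 < n) (r0 : Fin D × Fin m) (hL : h + 1 ≤ Fintype.card (Word D m B))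
    (hθ : θ ≤ Fintype.card (B × Word D m B)) (hT : Fintype.card (B × Word D m B) + e ≤ θ + T)
    (hK : 2 * (r * θ) + (e + 1) ≤ (w + 1) * (e + 1))
    {I : B × Word D m B → F} {c : List (B × Word D m B)} {z : Z} (hc : P.Ends I c z)
    (hall : ∀ l z, P.Ends I l z → ∃ X : Finset (B × Word D m B), θ ≤ X.card ∧ ∀ x ∈ X, l.count x ≤ r)
    (hlen : S ≤ 2 ^ R ∨ ∀ l z, P.Ends I l z → l.length ≤ 2 ^ R) :
    (∃ s t, (∃ c, P.Run I s c t ∧ c.length ≤ 2 ^ R) ∧ Force P g x0 h T a R s t I) ∨
      ∃ (σ : Fin (w + 2) → Fin S) (V : Finset (Fin n)) (τ : Fin (w + 1) → Fin n → Fin D × Fin m),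
      σ 0 = P.start ∧ P.act (σ (Fin.last _)) = Sum.inr z ∧ 3 * n ≤ 4 * V.card ∧ InT P g x0 h R σ V τ I := by
  obtain ⟨t, hct, hz⟩ := hc
  by_cases hF : ∃ s t, (∃ c, P.Run I s c t ∧ c.length ≤ 2 ^ R) ∧ Force P g x0 h T a R s t I
  · exact Or.inl hF
  right
  obtain ⟨ρ, hρ0, hρ1, hρ⟩ := Pool.Agent.Helper89.RQ.exists_cut P I θ r e (w + 1) hθ hK P.start t
    (fun c hc => hall c z ⟨t, hc, hz⟩) ⟨c, hct⟩
  -- the windows are parts of computations with results
  have hpre : ∀ j ≤ w + 1, ∃ d, P.Run I P.start d (ρ j) := by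
    intro j
    induction j with
    | zero => exact fun _ => ⟨[], by rw [hρ0]; exact NProg.Run.nil _⟩
    | succ j ih =>
      intro hj
      obtain ⟨d, hd⟩ := ih (by omega)
      obtain ⟨d', hd', -⟩ := hρ j (by omega)
      exact ⟨d ++ d', run_append hd hd'⟩
  have hsuf : ∀ k ≤ w + 1, ∃ d, P.Run I (ρ (w + 1 - k)) d t := by
    intro k
    induction k with
    | zero => exact fun _ => ⟨[], by rw [Nat.sub_zero, hρ1]; exact NProg.Run.nil _⟩
    | succ k ih =>
      intro hk
      obtain ⟨d, hd⟩ := ih (by omega)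
      obtain ⟨d', hd', -⟩ := hρ (w + 1 - (k + 1)) (by omega)
      have e1 : w + 1 - (k + 1) + 1 = w + 1 - k := by omega
      rw [e1] at hd'
      exact ⟨d' ++ d, run_append hd' hd⟩
  have hshort : ∀ l < w + 1, ∃ d, P.Run I (ρ l) d (ρ (l + 1)) ∧ d.length ≤ 2 ^ R := by
    intro l hl
    obtain ⟨d, hd, -⟩ := hρ l hl
    rcases hlen with hS | hlen
    · obtain ⟨d', hd', hlt⟩ := short_run hd
      exact ⟨d', hd', hlt.le.trans hS⟩
    · obtain ⟨d1, hd1⟩ := hpre l (by omega)
      obtain ⟨d2, hd2⟩ := hsuf (w - l) (by omega)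
      have e1 : w + 1 - (w - l) = l + 1 := by omega
      rw [e1] at hd2
      have h1 := hlen (d1 ++ (d ++ d2)) z ⟨t, run_append hd1 (run_append hd hd2), hz⟩
      rw [List.length_append, List.length_append] at h1
      exact ⟨d, hd, by omega⟩
  -- runs with few complete nodes
  have hd : ∀ l : Fin (w + 1), ∃ d, P.Run I (ρ l) d (ρ (l + 1)) ∧
      4 * (w + 1) * (comp g x0 h R I (free d)).card < n := by
    intro l
    obtain ⟨d, hd, hd1 | hd2⟩ := hρ l l.2
    · refine ⟨d, hd, ?_⟩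
      rw [comp_step g x0 h R I r0 hL hd1, card_empty, mul_zero]
      exact hn
    · by_contra hcon
      push Not at hcon
      refine hF ⟨_, _, hshort l l.2, fun c' hc' => ⟨?_, ?_⟩⟩
      · have h4 := hX _ (hcon c' hc')
        have h5 : ((comp g x0 h R I (free c')).biUnion (fun u => univ.image (fun s => g s u))) ⊆
            full g x0 h R I (free c') := by
          intro v hv
          obtain ⟨u, hu, hv⟩ := mem_biUnion.1 hv
          obtain ⟨s, -, rfl⟩ := mem_image.1 hv
          have h3 := (mem_filter.1 hu).2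
          exact mem_filter.2 ⟨mem_univ _, fun t => h3 s t⟩
        have h6 := card_le_card h5
        omega
      · have h4 := hd2 c' hc'
        have h5 : ((univ : Finset (B × Word D m B)).filter (fun z => z ∉ c')).card = (free c').card :=
          card_filter_inst _ _ _
        omega
  choose dd hdd using hd
  have hτ : ∀ l : Fin (w + 1), ∃ f : Fin n → Fin D × Fin m, ∀ u, u ∉ comp g x0 h R I (free (dd l)) →
      h ≤ gap (free (dd l)) (val (fine g) x0 (tab I) R (pos g f u)) := fun l =>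
    Pool.Agent.Helper78.NK.exists_holes g x0 h R I (free (dd l)) r0
  choose τ hτ using hτ
  refine ⟨fun l => ρ l, (univ.biUnion (fun l => comp g x0 h R I (free (dd l))))ᶜ, τ, hρ0, ?_, ?_, ?_⟩
  · show P.act (ρ (Fin.last (w + 1))) = Sum.inr z
    rw [Fin.val_last, hρ1]
    exact hz
  · have h1 := card_compl_add_card (univ.biUnion (fun l : Fin (w + 1) => comp g x0 h R I (free (dd l))))
    rw [Fintype.card_fin] at h1
    have h2 : (univ.biUnion (fun l : Fin (w + 1) => comp g x0 h R I (free (dd l)))).card ≤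
        ∑ l : Fin (w + 1), (comp g x0 h R I (free (dd l))).card := card_biUnion_le
    have h3 : 4 * (w + 1) * ∑ l : Fin (w + 1), (comp g x0 h R I (free (dd l))).card ≤ (w + 1) * n := by
      rw [mul_sum]
      calc ∑ l : Fin (w + 1), 4 * (w + 1) * (comp g x0 h R I (free (dd l))).card
          ≤ ∑ _l : Fin (w + 1), n := sum_le_sum fun l _ => (hdd l).2.le
        _ = (w + 1) * n := by rw [sum_const, card_univ, Fintype.card_fin, smul_eq_mul]
    have h4 : 4 * ∑ l : Fin (w + 1), (comp g x0 h R I (free (dd l))).card ≤ n := by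
      refine Nat.le_of_mul_le_mul_left ?_ (Nat.succ_pos w)
      calc (w + 1) * (4 * ∑ l : Fin (w + 1), (comp g x0 h R I (free (dd l))).card)
          = 4 * (w + 1) * ∑ l : Fin (w + 1), (comp g x0 h R I (free (dd l))).card := by ring
        _ ≤ (w + 1) * n := h3
    omega
  · intro l
    refine ⟨dd l, ?_, fun u hu => hτ l u fun h1 => ?_⟩
    · have h1 := (hdd l).1
      show P.Run I (ρ (l.castSucc : Fin (w + 2))) (dd l) (ρ (l.succ : Fin (w + 2)))
      rw [Fin.val_castSucc, Fin.val_succ]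
      exact h1
    · exact (mem_compl.1 hu) (mem_biUnion.2 ⟨l, mem_univ _, h1⟩)

end top

section forced

variable {n D m d S : ℕ} [NeZero m] {F B Z : Type} [Field F] [Fintype F] [AddCommGroup B] [Module F B] [Fintype B]

/-- The inputs with a forced pair of states. -/
theorem forced_pair (P : NProg (B × Word D m B) F Z S) (g : Fin D → Equiv.Perm (Fin n)) (x0 : Fin n × Fin m → B)
    (h T a R κ j : ℕ)
    (hX : ∀ X : Finset (Fin n), n ≤ 4 * X.card → n ≤ (X.biUnion (fun u => univ.image (fun s => g s u))).card + a)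
    (ha : a < n)
    (hL : h + 1 ≤ Fintype.card (Word D m B)) (hq : Fintype.card (Word D m B) ≤ h * Fintype.card F)
    (hT : T ≤ Fintype.card (B × Word D m B)) (η : ℝ)
    (hη : η = 1 + (1 - (T : ℝ) / Fintype.card (B × Word D m B) - (h : ℝ) / Fintype.card (Word D m B)) / 2)
    (hη1 : 1 ≤ η) (hκ : 2 * a ≤ κ) (hj : 2 * j ≤ n) :
    (Nat.card {I : B × Word D m B → F // CF (fine g) x0 R (tab I) ∧
      ∃ s t, (∃ c, P.Run I s c t ∧ c.length ≤ 2 ^ R) ∧ Force P g x0 h T a R s t I} : ℝ) ≤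
      R * S ^ 3 * 2 ^ n * (D * m) ^ (2 * n) *
          err n m d a κ j (Fintype.card F) ((h : ℝ) / Fintype.card (Word D m B)) η *
        Nat.card (B × Word D m B → F) := by
  classical
  let τ : Type := Fin R × (Fin S × Fin S × Fin S) × {J : Finset (Fin n) // n ≤ 2 * J.card} ×
    ((Fin n → Fin D × Fin m) × (Fin n → Fin D × Fin m))
  have hcov : ∀ I : B × Word D m B → F, (CF (fine g) x0 R (tab I) ∧
      ∃ s t, (∃ c, P.Run I s c t ∧ c.length ≤ 2 ^ R) ∧ Force P g x0 h T a R s t I) → False ∨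
      ∃ θ : τ, InE P g x0 h T a θ.1 θ.2.1.1 θ.2.1.2.1 θ.2.1.2.2 θ.2.2.1.1 θ.2.2.2.1 θ.2.2.2.2 I := by
    rintro I ⟨hcf, s, t, ⟨c, hc, hlc⟩, hF⟩
    right
    obtain ⟨i, hi, s', p, t', J, h1, h2, hJ, hE⟩ :=
      Pool.Agent.Helper89.NQ.exists_inE P g x0 h T a R hX ha hL hcf hF hc hlc
    exact ⟨(⟨i, hi⟩, (s', p, t'), ⟨J, hJ⟩, h1, h2), hE⟩
  have h1 := Pool.Agent.Helper78.NQ.card_le_add_sum hcov
  have h0 : Nat.card {I : B × Word D m B → F // False} = 0 := by
    rw [Nat.card_eq_zero]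
    exact Or.inl ⟨fun x => x.2⟩
  rw [h0, zero_add] at h1
  have h2 : (Nat.card {I : B × Word D m B → F // CF (fine g) x0 R (tab I) ∧
      ∃ s t, (∃ c, P.Run I s c t ∧ c.length ≤ 2 ^ R) ∧ Force P g x0 h T a R s t I} : ℝ) ≤
        ∑ θ : τ, (Nat.card {I : B × Word D m B → F //
          InE P g x0 h T a θ.1 θ.2.1.1 θ.2.1.2.1 θ.2.1.2.2 θ.2.2.1.1 θ.2.2.2.1 θ.2.2.2.2 I} : ℝ) := by
    exact_mod_cast h1
  set er : ℝ := err n m d a κ j (Fintype.card F) ((h : ℝ) / Fintype.card (Word D m B)) η with her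
  have her0 : 0 ≤ er := by
    rw [her]
    unfold err
    have : 0 ≤ η := le_trans zero_le_one hη1
    positivity
  have hone : ∀ θ : τ, (Nat.card {I : B × Word D m B → F //
      InE P g x0 h T a θ.1 θ.2.1.1 θ.2.1.2.1 θ.2.1.2.2 θ.2.2.1.1 θ.2.2.2.1 θ.2.2.2.2 I} : ℝ) ≤
      er * Nat.card (B × Word D m B → F) := by
    intro θ
    have hjJ : j ≤ θ.2.2.1.1.card := by
      have := θ.2.2.1.2
      omega
    exact Pool.Agent.Helper66.NQ.card_inE P g x0 h T a θ.1 κ j _ _ _ _ _ _ hjJ (by omega) hq hT η hη hη1 hκ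
  have hτ : (Fintype.card τ : ℝ) ≤ R * S ^ 3 * 2 ^ n * (D * m) ^ (2 * n) := by
    have h3 : Fintype.card τ = R * ((S * (S * S)) * (Fintype.card {J : Finset (Fin n) // n ≤ 2 * J.card} *
        ((D * m) ^ n * (D * m) ^ n))) := by
      show Fintype.card (Fin R × (Fin S × Fin S × Fin S) × {J : Finset (Fin n) // n ≤ 2 * J.card} ×
        ((Fin n → Fin D × Fin m) × (Fin n → Fin D × Fin m))) = _
      simp only [Fintype.card_prod, Fintype.card_fin, Fintype.card_fun]
    have h4 : Fintype.card {J : Finset (Fin n) // n ≤ 2 * J.card} ≤ 2 ^ n := by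
      refine (Fintype.card_subtype_le _).trans ?_
      rw [Fintype.card_finset, Fintype.card_fin]
    have h5 : Fintype.card τ ≤ R * ((S * (S * S)) * (2 ^ n * ((D * m) ^ n * (D * m) ^ n))) := by
      rw [h3]
      exact Nat.mul_le_mul_left _ (Nat.mul_le_mul_left _ (Nat.mul_le_mul_right _ h4))
    have h6 : R * ((S * (S * S)) * (2 ^ n * ((D * m) ^ n * (D * m) ^ n))) =
        R * S ^ 3 * 2 ^ n * (D * m) ^ (2 * n) := by
      rw [two_mul n, pow_add]
      ring
    rw [h6] at h5
    exact_mod_cast h5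
  refine h2.trans ?_
  calc ∑ θ : τ, (Nat.card {I : B × Word D m B → F //
          InE P g x0 h T a θ.1 θ.2.1.1 θ.2.1.2.1 θ.2.1.2.2 θ.2.2.1.1 θ.2.2.2.1 θ.2.2.2.2 I} : ℝ)
      ≤ ∑ _θ : τ, er * Nat.card (B × Word D m B → F) := sum_le_sum fun θ _ => hone θ
    _ = Fintype.card τ * (er * Nat.card (B × Word D m B → F)) := by
        rw [sum_const, card_univ, nsmul_eq_mul]
    _ ≤ (R * S ^ 3 * 2 ^ n * (D * m) ^ (2 * n)) * (er * Nat.card (B × Word D m B → F)) :=
        mul_le_mul_of_nonneg_right hτ (mul_nonneg her0 (Nat.cast_nonneg _))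
    _ = _ := by ring

end forced

end Pool.Agent.Helper74.RQ
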